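import Mathlib
import Pool.Agent.H64.Pent.Defs

set_option autoImplicit false

/-!
Symmetries of `Crit`, no circuit of length four, `n` is odd, `n = 5` (MP_a46c6f_co, row G5).
-/

namespace Pool.Agent.H73.Pent

open Pool.Agent.H64.Pent

lemma z2_cases (z : ZMod 2) : z = 0 ∨ z = 1 := by
  revert z; decide

/-- Reversal of the first circuit. -/
theorem crit_neg {n : ℕ} (p : Equiv.Perm (ZMod n)) (h : Crit p) :
    Crit ((Equiv.neg (ZMod n)).trans p) := by
  intro a b hab hi
  have h1 : Alt p (fun i => a (-i - 1)) b := by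
    intro i
    have h2 := hab (-i)
    simp only [Equiv.trans_apply, Equiv.neg_apply, neg_neg] at h2
    have e1 : -(i - 1) - 1 = -i := by ring
    simp only [e1]
    rcases h2 with ⟨h3, h4, h5, h6⟩ | ⟨h3, h4⟩
    · exact Or.inl ⟨h4, h3, h5, h6⟩
    · exact Or.inr ⟨by rw [add_comm]; exact h3, h4⟩
  have h2 : ∃ i, (fun i => a (-i - 1)) i = 1 := by
    obtain ⟨i, hi⟩ := hi
    refine ⟨-i - 1, ?_⟩
    have : -(-i - 1) - 1 = i := by ring
    simp only [this]
    exact hi
  obtain ⟨e, s, t, ⟨h3, h4, h5, h6⟩, ⟨h7, h8, h9, h10⟩, h11⟩ := h _ _ h1 h2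
  refine ⟨-e, fun i => s (-i - 1), t, ?_, ?_, ?_⟩
  · simp only [Equiv.trans_apply, Equiv.neg_apply, neg_neg]
    have e1 : -(e - 1) - 1 = -e := by ring
    simp only [e1] at h3
    exact ⟨h4, h3, h5, h6⟩
  · simp only [Equiv.trans_apply, Equiv.neg_apply, neg_neg]
    have e1 : -(-e - 1) - 1 = e := by ring
    rw [e1]
    exact ⟨h8, h7, h9, h10⟩
  · intro i hi
    have hi' : -i ≠ e := by
      intro h; apply hi; rw [← h, neg_neg]
    obtain ⟨v, h12, h13, h14, h15⟩ := h11 (-i) hi'
    refine ⟨v, ?_, ?_, ?_, ?_⟩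
    · have e1 : -(i - 1) - 1 = -i := by ring
      have e2 : -(-i) - 1 = i - 1 := by ring
      simp only [e1]
      rw [h13]
      simp only [e2]
    · have e2 : -(-i - 1) - 1 = i := by ring
      simp only [e2] at h12
      exact h12
    · exact h14
    · exact h15

/-- Exchange of the two circuits. -/
theorem crit_symm {n : ℕ} (p : Equiv.Perm (ZMod n)) (h : Crit p) : Crit p.symm := by
  intro a b hab hi
  have h1 : Alt p b a := by
    intro i
    have h2 := hab (p i)
    simp only [Equiv.symm_apply_apply] at h2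
    rcases h2 with ⟨h3, h4, h5, h6⟩ | ⟨h3, h4⟩
    · exact Or.inl ⟨h5, h6, h3, h4⟩
    · exact Or.inr ⟨h4, h3⟩
  have h2 : ∃ i, b i = 1 := by
    obtain ⟨j, hj⟩ := hi
    rcases hab j with ⟨h3, h4, h5, h6⟩ | ⟨h3, h4⟩
    · rw [hj] at h4
      exact absurd h4 one_ne_zero
    · rcases z2_cases (b (p.symm j)) with h5 | h5
      · rw [h5, add_zero] at h4
        exact ⟨_, h4⟩
      · exact ⟨_, h5⟩
  obtain ⟨e, s, t, ⟨h3, h4, h5, h6⟩, ⟨h7, h8, h9, h10⟩, h11⟩ := h _ _ h1 h2
  refine ⟨p e, fun j => 1 + a j + t j, fun i => 1 + b i + s i, ?_, ?_, ?_⟩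
  · simp only [Equiv.symm_apply_apply]
    exact ⟨h5, h6, h3, h4⟩
  · simp only [Equiv.symm_apply_apply, h5, h6, h9, h10, h3, h4, h7, h8]
    decide
  · intro j hj
    have hj' : p.symm j ≠ e := by
      intro h; apply hj; rw [← h, Equiv.apply_symm_apply]
    obtain ⟨v, h12, h13, h14, h15⟩ := h11 _ hj'
    simp only [Equiv.apply_symm_apply] at h14 h15
    refine ⟨1 + v, ?_, ?_, ?_, ?_⟩
    · simp only [h14]; ring
    · simp only [h15]; ring
    · simp only [h12]; ring
    · simp only [h13]; ring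

/-- A function on the circuit which is constant across all vertices but two neighbours. -/
lemma const_off {n : ℕ} (hn : 3 ≤ n) {α : Type*} (g : ZMod n → α) (i : ZMod n)
    (h : ∀ j, j ≠ i → j ≠ i + 1 → g (j - 1) = g j) (j : ZMod n) (hj : j ≠ i) :
    g j = g (i + 1) := by
  have : NeZero n := ⟨by omega⟩
  have key : ∀ m : ℕ, 1 ≤ m → m < n → g (i + (m : ZMod n)) = g (i + 1) := by
    intro m hm
    induction m, hm using Nat.le_induction with
    | base => intro _; rw [Nat.cast_one]
    | succ m hm ih =>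
      intro hlt
      have h1 : ((m + 1 : ℕ) : ZMod n) ≠ 0 := by
        rw [Ne, ZMod.natCast_eq_zero_iff]
        intro hd
        exact absurd (Nat.le_of_dvd (by omega) hd) (by omega)
      have h2 : ((m + 1 : ℕ) : ZMod n) ≠ 1 := by
        intro h3
        have h4 : ((m : ℕ) : ZMod n) = 0 := by
          push_cast at h3
          exact add_eq_right.1 h3
        rw [ZMod.natCast_eq_zero_iff] at h4
        exact absurd (Nat.le_of_dvd (by omega) h4) (by omega)
      rw [← ih (by omega)]
      rw [← h (i + ((m + 1 : ℕ) : ZMod n)) (by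
        intro h3; exact h1 (add_eq_left.1 h3)) (by
        intro h3; exact h2 (add_left_cancel h3))]
      congr 1
      push_cast
      ring
  have h1 : 1 ≤ (j - i).val := by
    have : (j - i).val ≠ 0 := by
      rw [Ne, ZMod.val_eq_zero]
      exact sub_ne_zero.2 hj
    omega
  have h2 := key (j - i).val h1 (ZMod.val_lt _)
  rw [ZMod.natCast_zmod_val] at h2
  rw [← h2]
  congr 1
  ring

lemma one_ne_zero' {n : ℕ} (hn : 3 ≤ n) : (1 : ZMod n) ≠ 0 := by
  have : Fact (1 < n) := ⟨by omega⟩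
  exact one_ne_zero

lemma two_ne_zero' {n : ℕ} (hn : 3 ≤ n) : (1 : ZMod n) + 1 ≠ 0 := by
  have h : ((2 : ℕ) : ZMod n) ≠ 0 := by
    rw [Ne, ZMod.natCast_eq_zero_iff]
    intro hd
    exact absurd (Nat.le_of_dvd (by omega) hd) (by omega)
  have h2 : ((2 : ℕ) : ZMod n) = 1 + 1 := by push_cast; norm_num
  rwa [h2] at h

lemma no_four_one {n : ℕ} (hn : 3 ≤ n) (p : Equiv.Perm (ZMod n)) (h : Crit p) (i : ZMod n) :
    p (i + 1) ≠ p i + 1 := by
  classical
  intro hp
  have one0 := one_ne_zero' hn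
  have two0 := two_ne_zero' hn
  set a : ZMod n → ZMod 2 := fun k => if k = i then 1 else 0 with ha
  set b : ZMod n → ZMod 2 := fun k => if k = p i then 1 else 0 with hb
  have nepred : ∀ k : ZMod n, k - 1 ≠ k := by
    intro k hk
    exact one0 (by
      have := sub_eq_self.1 hk
      exact this)
  have nesucc : ∀ k : ZMod n, k + 1 ≠ k := by
    intro k hk
    exact one0 (add_eq_left.1 hk)
  have halt : Alt p a b := by
    intro k
    by_cases hk : k = i
    · right
      subst hk
      constructor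
      · show (if k - 1 = k then (1 : ZMod 2) else 0) + (if k = k then 1 else 0) = 1
        rw [if_neg (nepred k), if_pos rfl, zero_add]
      · show (if p k - 1 = p k then (1 : ZMod 2) else 0) + (if p k = p k then 1 else 0) = 1
        rw [if_neg (nepred _), if_pos rfl, zero_add]
    · by_cases hk1 : k = i + 1
      · right
        subst hk1
        constructor
        · simp only [ha]
          rw [if_pos (by ring), if_neg (nesucc i), add_zero]
        · simp only [hb]
          rw [hp, if_pos (by ring), if_neg (nesucc _), add_zero]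
      · left
        have h1 : k - 1 ≠ i := by
          intro h2; apply hk1; rw [← h2]; ring
        have h2 : p k ≠ p i := fun h3 => hk (p.injective h3)
        have h3 : p k - 1 ≠ p i := by
          intro h4
          apply hk1
          apply p.injective
          rw [hp, ← h4]; ring
        simp only [ha, hb]
        rw [if_neg h1, if_neg hk, if_neg h3, if_neg h2]
        exact ⟨rfl, rfl, rfl, rfl⟩
  obtain ⟨e, s, t, ⟨h3, h4, h5, h6⟩, ⟨h7, h8, h9, h10⟩, h11⟩ :=
    h a b halt ⟨i, by simp [ha]⟩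
  have hei : e ≠ i := by
    intro h0
    rw [h0] at h4
    simp only [ha, if_pos] at h4
    exact one_ne_zero h4
  have hpe : p e ≠ p i := fun h0 => hei (p.injective h0)
  have hs : ∀ j, j ≠ i → j ≠ i + 1 → s (j - 1) = s j := by
    intro j hj hj1
    by_cases hje : j = e
    · rw [hje, h7, h8]
    · obtain ⟨v, h12, h13, h14, h15⟩ := h11 j hje
      have h1 : j - 1 ≠ i := by
        intro h2; apply hj1; rw [← h2]; ring
      simp only [ha] at h12 h13
      rw [if_neg h1] at h12
      rw [if_neg hj] at h13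
      rw [h12, h13]
  have ht : ∀ j, j ≠ p i → j ≠ p i + 1 → t (j - 1) = t j := by
    intro j hj hj1
    obtain ⟨k, rfl⟩ := p.surjective j
    by_cases hke : k = e
    · rw [hke, h9, h10]
    · obtain ⟨v, h12, h13, h14, h15⟩ := h11 k hke
      have h1 : p k - 1 ≠ p i := by
        intro h2; apply hj1; rw [← h2]; ring
      simp only [hb] at h14 h15
      rw [if_neg h1] at h14
      rw [if_neg hj] at h15
      rw [h14, h15]
  have s1 : s (i - 1) = 1 := by
    rw [const_off hn s i hs (i - 1) (nepred i), ← const_off hn s i hs e hei, h8]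
  have t1 : t (p i - 1) = 0 := by
    rw [const_off hn t (p i) ht (p i - 1) (nepred _), ← const_off hn t (p i) ht (p e) hpe, h10]
  obtain ⟨v, h12, h13, h14, h15⟩ := h11 i (Ne.symm hei)
  simp only [ha] at h12
  simp only [hb] at h14
  rw [if_neg (nepred i), add_zero, one_mul, s1] at h12
  rw [if_neg (nepred _), add_zero, one_mul, t1, ← h12] at h14
  exact one_ne_zero h14.symm

/-- There is no circuit of length four. -/
theorem no_four {n : ℕ} (hn : 3 ≤ n) (p : Equiv.Perm (ZMod n)) (h : Crit p) (i : ZMod n) :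
    p (i + 1) ≠ p i + 1 ∧ p (i + 1) ≠ p i - 1 := by
  refine ⟨no_four_one hn p h i, ?_⟩
  intro hp
  have h1 := no_four_one hn _ (crit_neg p h) (-i - 1)
  apply h1
  simp only [Equiv.trans_apply, Equiv.neg_apply]
  have e1 : -(-i - 1 + 1) = i := by ring
  have e2 : -(-i - 1) = i + 1 := by ring
  rw [e1, e2, hp]
  ring

/-- The number of matching edges is odd. -/
theorem odd_of_crit {n : ℕ} (hn : 3 ≤ n) (p : Equiv.Perm (ZMod n)) (h : Crit p) : n % 2 = 1 := by
  by_contra hcon
  have h2 : 2 ∣ n := by omega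
  set φ : ZMod n →+* ZMod 2 := ZMod.castHom h2 (ZMod 2) with hφ
  have key : ∀ i : ZMod n, φ (i - 1) + φ i = 1 := by
    intro i
    rw [map_sub, map_one]
    generalize φ i = z
    revert z
    decide
  obtain ⟨e, s, t, ⟨h3, h4, h5, h6⟩, -⟩ := h (fun i => φ i) (fun i => φ i)
    (fun i => Or.inr ⟨key i, key (p i)⟩) ⟨1, map_one φ⟩
  have h7 := key e
  simp only at h3 h4
  rw [h3, h4, add_zero] at h7
  exact zero_ne_one h7

theorem pent_of_five (p : Equiv.Perm (ZMod 5)) (h : Crit p) :
    ∃ i, p (i + 2) = p i + 1 ∨ p (i + 2) = p i - 1 := by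
  refine ⟨0, ?_⟩
  have h1 := no_four (by norm_num) p h 0
  have h2 := no_four (by norm_num) p h 1
  have h3 : p 1 ≠ p 0 := fun h0 => absurd (p.injective h0) (by decide)
  have h4 : p 2 ≠ p 1 := fun h0 => absurd (p.injective h0) (by decide)
  have h5 : p 2 ≠ p 0 := fun h0 => absurd (p.injective h0) (by decide)
  have e1 : (0 : ZMod 5) + 1 = 1 := by decide
  have e2 : (1 : ZMod 5) + 1 = 2 := by decide
  have e3 : (0 : ZMod 5) + 2 = 2 := by decide
  rw [e1] at h1
  rw [e2] at h2
  rw [e3]
  have key : ∀ a b c : ZMod 5, b ≠ a → b ≠ a + 1 → b ≠ a - 1 → c ≠ b → c ≠ b + 1 → c ≠ b - 1 →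
      c ≠ a → (c = a + 1 ∨ c = a - 1) := by decide
  exact key _ _ _ h3 h1.1 h1.2 h4 h2.1 h2.2 h5

theorem big {n : ℕ} (hn : 3 ≤ n) (p : Equiv.Perm (ZMod n)) (h : Crit p) : 5 ≤ n := by
  have h1 := odd_of_crit hn p h
  by_contra hcon
  have h2 : n = 3 := by omega
  subst h2
  have h3 := no_four (le_refl 3) p h 0
  have h4 : p (0 + 1) ≠ p 0 := fun h0 => absurd (p.injective h0) (by decide)
  have key : ∀ a b : ZMod 3, b ≠ a → b ≠ a + 1 → b = a - 1 := by decide
  exact h3.2 (key _ _ h4 h3.1)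

theorem final_five (p : Equiv.Perm (ZMod 5)) (h : Crit p) (f : ZMod 5)
    (hp : p (f + 2) = p f + 1) : ∀ i, p i = p f + 3 * (i - f) := by
  have q := fun i => no_four (by norm_num) p h i
  have inj : ∀ k l : ZMod 5, k ≠ l → p (f + k) ≠ p (f + l) :=
    fun k l hkl h0 => hkl (add_left_cancel (p.injective h0))
  have h1 : p (f + 1) = p f + 3 := by
    have q0 := q f
    have q1 := q (f + 1)
    have e1 : f + 1 + 1 = f + 2 := by ring
    rw [e1, hp] at q1
    have n1 : p (f + 1) ≠ p f := by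
      have := inj 1 0 (by decide)
      rwa [add_zero] at this
    have key : ∀ a b c : ZMod 5, c = a + 1 → b ≠ a → b ≠ a + 1 → b ≠ a - 1 → c ≠ b + 1 →
        c ≠ b - 1 → b = a + 3 := by decide
    exact key _ _ _ rfl n1 q0.1 q0.2 q1.1 q1.2
  have h3 : p (f + 3) = p f + 4 := by
    have q2 := q (f + 2)
    have e1 : f + 2 + 1 = f + 3 := by ring
    rw [e1, hp] at q2
    have n1 : p (f + 3) ≠ p f + 3 := by
      rw [← h1]; exact inj 3 1 (by decide)
    have n2 : p (f + 3) ≠ p f + 1 := by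
      rw [← hp]; exact inj 3 2 (by decide)
    have key : ∀ a b : ZMod 5, b ≠ a + 1 + 1 → b ≠ a + 1 - 1 → b ≠ a + 3 → b ≠ a + 1 →
        b = a + 4 := by decide
    exact key _ _ q2.1 q2.2 n1 n2
  have h4 : p (f + 4) = p f + 2 := by
    have q3 := q (f + 3)
    have e1 : f + 3 + 1 = f + 4 := by ring
    rw [e1, h3] at q3
    have n1 : p (f + 4) ≠ p f + 4 := by
      rw [← h3]; exact inj 4 3 (by decide)
    have n2 : p (f + 4) ≠ p f + 1 := by
      rw [← hp]; exact inj 4 2 (by decide)
    have key : ∀ a b : ZMod 5, b ≠ a + 4 + 1 → b ≠ a + 4 - 1 → b ≠ a + 4 → b ≠ a + 1 →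
        b = a + 2 := by decide
    exact key _ _ q3.1 q3.2 n1 n2
  intro i
  have key : ∀ k : ZMod 5, k = 0 ∨ k = 1 ∨ k = 2 ∨ k = 3 ∨ k = 4 := by decide
  have hi : i = f + (i - f) := by ring
  rcases key (i - f) with h0 | h0 | h0 | h0 | h0
  · rw [h0, hi, h0, add_zero, mul_zero, add_zero]
  · rw [h0, hi, h0, h1]; ring
  · rw [h0, hi, h0, hp]
    have : (3 : ZMod 5) * 2 = 1 := by decide
    rw [this]
  · rw [h0, hi, h0, h3]
    have : (3 : ZMod 5) * 3 = 4 := by decide
    rw [this]
  · rw [h0, hi, h0, h4]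
    have : (3 : ZMod 5) * 4 = 2 := by decide
    rw [this]

end Pool.Agent.H73.Pent
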